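import Mathlib

/-! # Representatives of `ℤ^k / ⟨w⟩` in the half-open box of `w` -/

set_option autoImplicit false

open scoped BigOperators

namespace Pool.Agent.TH703.MR

theorem reps {k : ℕ} (w : Fin k → Fin k → ℤ) (hw : (Matrix.of w).det ≠ 0) :
    ∃ R : Finset (Fin k → ℤ), R.card = (Matrix.of w).det.natAbs ∧
      (∀ u ∈ R, ∃ θ : Fin k → ℝ, (∀ i, 0 < θ i ∧ θ i ≤ 1) ∧
        (fun l => (u l : ℝ)) = ∑ i, θ i • (fun l => (w i l : ℝ))) ∧
      (∀ u ∈ R, ∀ u' ∈ R, ∀ z : Fin k → ℤ, u - u' = ∑ i, z i • w i → u = u') := by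
  classical
  -- linear independence over ℤ
  have hli : LinearIndependent ℤ w := by
    have := Matrix.linearIndependent_rows_of_det_ne_zero hw
    exact this
  set N : Submodule ℤ (Fin k → ℤ) := Submodule.span ℤ (Set.range w) with hN
  let bN : Module.Basis (Fin k) ℤ N := Module.Basis.span hli
  have hbN : ∀ i, ((bN i : N) : Fin k → ℤ) = w i := fun i =>
    Module.Basis.coe_span_apply hli i
  have hcard : Nat.card ((Fin k → ℤ) ⧸ N) = (Matrix.of w).det.natAbs := by
    rw [← Submodule.natAbs_det_basis_change (Pi.basisFun ℤ (Fin k)) N bN]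
    congr 1
    have h1 : ((↑) ∘ bN : Fin k → Fin k → ℤ) = w := funext fun i => hbN i
    rw [h1, Module.Basis.det_apply, ← Matrix.det_transpose]
    congr 1
  have hpos : Nat.card ((Fin k → ℤ) ⧸ N) ≠ 0 := by
    rw [hcard]; exact Int.natAbs_ne_zero.2 hw
  have : Finite ((Fin k → ℤ) ⧸ N) := Nat.finite_of_card_ne_zero hpos
  have := Fintype.ofFinite ((Fin k → ℤ) ⧸ N)
  -- real coordinates
  let W : Matrix (Fin k) (Fin k) ℝ := (Matrix.of w).map (fun x : ℤ => (x : ℝ))
  have hW : IsUnit W.det := by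
    have h2 : W.det = ((Matrix.of w).det : ℝ) := by
      have := (Int.castRingHom ℝ).map_det (Matrix.of w)
      simpa [W, RingHom.mapMatrix_apply] using this.symm
    rw [h2, isUnit_iff_ne_zero]
    exact_mod_cast hw
  have hco : ∀ u : Fin k → ℤ, ∃ θ : Fin k → ℝ,
      (fun l => (u l : ℝ)) = ∑ i, θ i • (fun l => (w i l : ℝ)) := by
    intro u
    refine ⟨Matrix.vecMul (fun l => (u l : ℝ)) W⁻¹, ?_⟩
    have h3 : Matrix.vecMul (Matrix.vecMul (fun l => (u l : ℝ)) W⁻¹) W = fun l => (u l : ℝ) := by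
      rw [Matrix.vecMul_vecMul, Matrix.nonsing_inv_mul _ hW, Matrix.vecMul_one]
    conv_lhs => rw [← h3]
    ext l
    simp only [Matrix.vecMul, dotProduct, Finset.sum_apply, Pi.smul_apply, smul_eq_mul]
    rfl
  -- representative in the half-open box
  have hrep : ∀ q : (Fin k → ℤ) ⧸ N, ∃ u : Fin k → ℤ, Submodule.Quotient.mk u = q ∧
      ∃ θ : Fin k → ℝ, (∀ i, 0 < θ i ∧ θ i ≤ 1) ∧
        (fun l => (u l : ℝ)) = ∑ i, θ i • (fun l => (w i l : ℝ)) := by
    intro q
    obtain ⟨u, rfl⟩ := Submodule.Quotient.mk_surjective N q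
    obtain ⟨θ, hθ⟩ := hco u
    refine ⟨u - ∑ i, (⌈θ i⌉ - 1) • w i, ?_, fun i => θ i - (⌈θ i⌉ - 1), ?_, ?_⟩
    · rw [Submodule.Quotient.eq]
      have : u - ∑ i, (⌈θ i⌉ - 1) • w i - u = -∑ i, (⌈θ i⌉ - 1) • w i := by abel
      rw [this]
      exact N.neg_mem (N.sum_mem fun i _ => N.smul_mem _ (Submodule.subset_span ⟨i, rfl⟩))
    · intro i
      have h1 := Int.ceil_lt_add_one (θ i)
      have h2 := Int.le_ceil (θ i)
      constructor <;> linarith
    · have h4 : (fun l => ((u - ∑ i, (⌈θ i⌉ - 1) • w i) l : ℝ)) =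
          (fun l => (u l : ℝ)) - ∑ i, ((⌈θ i⌉ : ℝ) - 1) • (fun l => (w i l : ℝ)) := by
        ext l
        simp [Finset.sum_apply]
      rw [h4, hθ, ← Finset.sum_sub_distrib]
      refine Finset.sum_congr rfl fun i _ => ?_
      rw [← sub_smul]
  choose rep hr1 hr2 using hrep
  have hinj : Function.Injective rep := fun q q' h => by
    rw [← hr1 q, ← hr1 q', h]
  refine ⟨Finset.univ.image rep, ?_, ?_, ?_⟩
  · rw [Finset.card_image_of_injective _ hinj, Finset.card_univ, ← Nat.card_eq_fintype_card, hcard]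
  · intro u hu
    obtain ⟨q, -, rfl⟩ := Finset.mem_image.1 hu
    exact hr2 q
  · intro u hu u' hu' z hz
    obtain ⟨q, -, rfl⟩ := Finset.mem_image.1 hu
    obtain ⟨q', -, rfl⟩ := Finset.mem_image.1 hu'
    congr 1
    rw [← hr1 q, ← hr1 q', Submodule.Quotient.eq, hz]
    exact N.sum_mem fun i _ => N.smul_mem _ (Submodule.subset_span ⟨i, rfl⟩)

end Pool.Agent.TH703.MR
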